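import Mathlib

namespace Pool.Agent.Results.MP_4ec7af_co.Cycle25

/-- `w` is a `D`-private neighbour of `v`. -/
def PN {V : Type} (G : SimpleGraph V) (D : Finset V) (v w : V) : Prop :=
  (w = v ∨ G.Adj v w) ∧ ∀ u ∈ D, u ≠ v → ¬ (w = u ∨ G.Adj u w)

def Irredundant {V : Type} (G : SimpleGraph V) (D : Finset V) : Prop :=
  ∀ v ∈ D, ∃ w, PN G D v w

/-- Upper irredundance number. -/
noncomputable def IR {V : Type} (G : SimpleGraph V) : ℕ :=
  sSup {k : ℕ | ∃ D : Finset V, Irredundant G D ∧ D.card = k}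

/-- The IR-graph: vertices are the irredundant sets of size `IR G`; `D, D'` are adjacent when one
is obtained from the other by exchanging a vertex for a neighbour of it. -/
def IRGraph {V : Type} [DecidableEq V] (G : SimpleGraph V) :
    SimpleGraph {D : Finset V // Irredundant G D ∧ D.card = IR G} :=
  SimpleGraph.fromRel fun D D' =>
    ∃ u ∈ D.1, ∃ v ∈ D'.1, v ≠ u ∧ G.Adj u v ∧ D'.1 = insert v (D.1.erase u)

def adjN : Nat := 0x66807604560c540cd01693d693d2b2d2f2d2701cf01ee09ec19e839e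
def adj (x y : Nat) : Bool := Nat.testBit adjN (15 * x + y)
def nbG (v w : Nat) : Bool := Nat.beq w v || adj v w

def irrL (l : List Nat) : Bool :=
  l.all fun v => (List.range 15).any fun w => nbG v w && l.all fun u => Nat.beq u v || !(nbG u w)

def cl : Fin 25 → List (Fin 15) := ![[0, 7, 8, 11], [0, 7, 8, 14], [4, 7, 8, 14], [4, 7, 8, 12], [4, 7, 10, 12], [4, 6, 7, 10], [4, 6, 7, 13], [3, 6, 7, 13], [3, 6, 7, 11], [3, 6, 11, 14], [3, 5, 6, 14], [3, 5, 6, 12], [2, 5, 6, 12], [2, 5, 6, 10], [2, 5, 10, 13], [2, 5, 9, 13], [2, 5, 9, 11], [1, 5, 9, 11], [1, 5, 9, 14], [1, 9, 12, 14], [1, 8, 9, 12], [1, 8, 9, 10], [0, 8, 9, 10], [0, 8, 9, 13], [0, 8, 11, 13]]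

theorem chkS : ∀ x y : Fin 15, adj x.val y.val = adj y.val x.val ∧ adj x.val x.val = false := by
  decide +kernel

theorem chkA : ∀ a b : Fin 15, a < b → ∀ c : Fin 15, b < c → ∀ d : Fin 15, c < d →
    irrL [a.val, b.val, c.val, d.val] = true → ∃ i : Fin 25, cl i = [a, b, c, d] := by
  decide +kernel

theorem chkB : ∀ i : Fin 25, irrL ((cl i).map Fin.val) = true ∧ (cl i).toFinset.card = 4 ∧
    ∀ x : Fin 15, x ∈ cl i ∨ irrL ((x :: cl i).map Fin.val) = false := by
  decide +kernel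

theorem chkI : ∀ i j : Fin 25, (cl i).toFinset = (cl j).toFinset → i = j := by
  decide +kernel

theorem chkC : ∀ i j : Fin 25, (SimpleGraph.cycleGraph 25).Adj i j ↔ (i ≠ j ∧
    ((∃ u ∈ (cl i).toFinset, ∃ v ∈ (cl j).toFinset, v ≠ u ∧ adj u.val v.val = true ∧
      (cl j).toFinset = insert v ((cl i).toFinset.erase u)) ∨
    (∃ u ∈ (cl j).toFinset, ∃ v ∈ (cl i).toFinset, v ≠ u ∧ adj u.val v.val = true ∧
      (cl i).toFinset = insert v ((cl j).toFinset.erase u)))) := by
  decide +kernel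

def G15 : SimpleGraph (Fin 15) := SimpleGraph.fromRel fun x y => adj x.val y.val = true

theorem adj_iff (x y : Fin 15) : G15.Adj x y ↔ adj x.val y.val = true := by
  have h := chkS x y
  unfold G15
  rw [SimpleGraph.fromRel_adj, ← h.1]
  constructor
  · rintro ⟨_, h1 | h1⟩ <;> exact h1
  · intro h1
    refine ⟨?_, Or.inl h1⟩
    rintro rfl
    rw [h.2] at h1
    exact Bool.false_ne_true h1

theorem nbG_iff (v w : Fin 15) : nbG v.val w.val = true ↔ (w = v ∨ G15.Adj v w) := by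
  unfold nbG
  rw [Bool.or_eq_true, Nat.beq_eq, adj_iff, Fin.ext_iff]

theorem irr_mono {S T : Finset (Fin 15)} (h : Irredundant G15 T) (hS : S ⊆ T) :
    Irredundant G15 S := by
  intro v hv
  obtain ⟨w, h1, h2⟩ := h v (hS hv)
  exact ⟨w, h1, fun u hu => h2 u (hS hu)⟩

theorem irrL_iff (l : List (Fin 15)) :
    irrL (l.map Fin.val) = true ↔ Irredundant G15 l.toFinset := by
  have h := nbG_iff
  unfold irrL Irredundant PN
  simp only [List.all_eq_true, List.any_eq_true, List.mem_map, List.mem_range, Bool.and_eq_true,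
    Bool.or_eq_true, Nat.beq_eq, Bool.not_eq_true', List.mem_toFinset]
  constructor
  · intro H v hv
    obtain ⟨w, hw, h1, h2⟩ := H v.val ⟨v, hv, rfl⟩
    refine ⟨⟨w, hw⟩, (h v ⟨w, hw⟩).mp h1, ?_⟩
    intro u hu huv hc
    rcases h2 u.val ⟨u, hu, rfl⟩ with h3 | h3
    · exact huv (Fin.ext h3)
    · have := (h u ⟨w, hw⟩).mpr hc
      simp only at this
      rw [h3] at this
      exact Bool.false_ne_true this
  · rintro H _ ⟨v, hv, rfl⟩
    obtain ⟨w, h1, h2⟩ := H v hv
    refine ⟨w.val, w.isLt, (h v w).mpr h1, ?_⟩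
    rintro _ ⟨u, hu, rfl⟩
    by_cases huv : u = v
    · exact Or.inl (by rw [huv])
    · right
      have := h2 u hu huv
      rw [← h u w] at this
      simpa using this

theorem four (D : Finset (Fin 15)) (hI : Irredundant G15 D) (hc : D.card = 4) :
    ∃ i, (cl i).toFinset = D := by
  let e := D.orderEmbOfFin hc
  have hD : ([e 0, e 1, e 2, e 3] : List (Fin 15)).toFinset = D := by
    ext x
    have hr : x ∈ D ↔ ∃ i, e i = x := by
      rw [← Finset.mem_coe, ← Finset.range_orderEmbOfFin D hc]; rfl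
    rw [hr]
    simp only [List.mem_toFinset, List.mem_cons, List.not_mem_nil, or_false]
    constructor
    · rintro (h | h | h | h) <;> exact ⟨_, h.symm⟩
    · rintro ⟨i, rfl⟩
      fin_cases i <;> simp
  have h1 := (irrL_iff [e 0, e 1, e 2, e 3]).mpr (by rw [hD]; exact hI)
  obtain ⟨i, hi⟩ := chkA (e 0) (e 1) (e.strictMono (by decide)) (e 2) (e.strictMono (by decide))
    (e 3) (e.strictMono (by decide)) h1
  exact ⟨i, by rw [hi, hD]⟩

theorem le4 (D : Finset (Fin 15)) (hI : Irredundant G15 D) : D.card ≤ 4 := by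
  by_contra hlt
  obtain ⟨S, hS, hc⟩ := Finset.exists_subset_card_eq (show 4 ≤ D.card by omega)
  obtain ⟨i, hi⟩ := four S (irr_mono hI hS) hc
  have hne : (D \ S).Nonempty := by
    rw [← Finset.card_pos, Finset.card_sdiff_of_subset hS]; omega
  obtain ⟨x, hx⟩ := hne
  rw [Finset.mem_sdiff] at hx
  rcases (chkB i).2.2 x with h | h
  · exact hx.2 (by rw [← hi]; exact List.mem_toFinset.mpr h)
  · have h2 : Irredundant G15 (x :: cl i).toFinset := by
      apply irr_mono hI
      rw [List.toFinset_cons, hi]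
      exact Finset.insert_subset hx.1 hS
    rw [(irrL_iff _).mpr h2] at h
    exact Bool.noConfusion h

theorem IR_eq : IR G15 = 4 := by
  unfold IR
  apply IsGreatest.csSup_eq
  refine ⟨⟨(cl 0).toFinset, (irrL_iff _).mp (chkB 0).1, (chkB 0).2.1⟩, ?_⟩
  rintro k ⟨D, hD, rfl⟩
  exact le4 D hD

def emb (i : Fin 25) : {D : Finset (Fin 15) // Irredundant G15 D ∧ D.card = IR G15} :=
  ⟨(cl i).toFinset, (irrL_iff _).mp (chkB i).1, by rw [IR_eq]; exact (chkB i).2.1⟩

theorem emb_bij : Function.Bijective emb := by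
  constructor
  · intro i j h
    exact chkI i j (congrArg Subtype.val h)
  · rintro ⟨D, hD, hc⟩
    obtain ⟨i, hi⟩ := four D hD (by rw [hc, IR_eq])
    exact ⟨i, Subtype.ext hi⟩

theorem result : ∃ n : ℕ, 5 ≤ n ∧ ∃ (m : ℕ) (G : SimpleGraph (Fin m)),
    Nonempty (IRGraph G ≃g SimpleGraph.cycleGraph n) := by
  refine ⟨25, by norm_num, 15, G15, ⟨SimpleGraph.Iso.symm ⟨Equiv.ofBijective emb emb_bij, ?_⟩⟩⟩
  intro i j
  rw [chkC i j]
  simp only [Equiv.ofBijective_apply, IRGraph, SimpleGraph.fromRel_adj, adj_iff]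
  have : emb i ≠ emb j ↔ i ≠ j := emb_bij.1.ne_iff
  rw [this]
  rfl

end Pool.Agent.Results.MP_4ec7af_co.Cycle25
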